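import Mathlib

/-! Retracts of free Burnside groups that are not free. -/

namespace Pool.Agent.Results.MP_836feb_al.No

/-- The free Burnside group of exponent `n` on the set `X`. -/
abbrev B (X : Type) (n : ℕ) : Type :=
  FreeGroup X ⧸ Subgroup.normalClosure (Set.range fun w : FreeGroup X => w ^ n)

/-- A generator. -/
def gen {X : Type} (n : ℕ) (x : X) : B X n := QuotientGroup.mk (FreeGroup.of x)

theorem pow_n {X : Type} {n : ℕ} (g : B X n) : g ^ n = 1 := by
  obtain ⟨w, rfl⟩ := QuotientGroup.mk_surjective g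
  rw [← QuotientGroup.mk_pow, QuotientGroup.eq_one_iff]
  exact Subgroup.subset_normalClosure ⟨w, rfl⟩

theorem ex_lift {X G : Type} [Group G] {n : ℕ} (hG : ∀ g : G, g ^ n = 1) (f : X → G) :
    ∃ φ : B X n →* G, ∀ x, φ (gen n x) = f x :=
  ⟨QuotientGroup.lift _ (FreeGroup.lift f) (Subgroup.normalClosure_le_normal (by
    rintro _ ⟨w, rfl⟩
    change FreeGroup.lift f (w ^ n) = 1
    rw [map_pow, hG])), fun x => FreeGroup.lift_apply_of⟩

theorem hom_ext {X G : Type} [Group G] {n : ℕ} {φ ψ : B X n →* G}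
    (h : ∀ x, φ (gen n x) = ψ (gen n x)) : φ = ψ :=
  QuotientGroup.monoidHom_ext _ (FreeGroup.ext_hom _ _ h)

theorem zm (n : ℕ) (g : Multiplicative (ZMod n)) : g ^ n = 1 := by
  apply Multiplicative.toAdd.injective
  simp

theorem main (a b : ℕ) (ha : 1 < a) (hb : 1 < b) (hab : Nat.Coprime a b)
    (X : Type) [Nonempty X] :
    ∃ H : Subgroup (B X (a * b)), (∃ ρ : B X (a * b) →* H, ∀ h : H, ρ h = h) ∧
      (∀ Y : Type, IsEmpty (H ≃* B Y (a * b))) ∧ (Nontrivial X → ¬ IsCyclic H) := by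
  classical
  obtain ⟨e, h1, h2⟩ := Nat.chineseRemainder hab 1 0
  have hbe : b ∣ e := (Nat.modEq_zero_iff_dvd).1 h2
  have hee : e * e ≡ e [MOD a * b] := (Nat.modEq_and_modEq_iff_modEq_mul hab).1
    ⟨by simpa using h1.mul_left e, by simpa using (h2.mul_left e).trans h2.symm⟩
  have hmod : ∀ (g : B X (a * b)) (k l : ℕ), k ≡ l [MOD a * b] → g ^ k = g ^ l := fun g k l h =>
    pow_eq_pow_iff_modEq.2 (h.of_dvd (orderOf_dvd_of_pow_eq_one (pow_n g)))
  obtain ⟨r, hr⟩ := ex_lift (X := X) (pow_n (X := X) (n := a * b)) fun x => gen (a * b) x ^ e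
  have hrr : r.comp r = r := hom_ext fun x => by
    rw [MonoidHom.comp_apply, hr, map_pow, hr, ← pow_mul, hmod _ _ _ hee]
  have hth : ∀ {G : Type} [Group G], (∀ g : G, g ^ a = 1) → ∀ φ : B X (a * b) →* G,
      φ.comp r = φ := fun hG φ => hom_ext fun x => by
    rw [MonoidHom.comp_apply, hr, map_pow]
    simpa using pow_eq_pow_iff_modEq.2 (h1.of_dvd (orderOf_dvd_of_pow_eq_one (hG _)))
  haveI : Fact (1 < a) := ⟨ha⟩
  refine ⟨r.range, ⟨r.rangeRestrict, ?_⟩, fun Y => ⟨fun φ => ?_⟩, fun hX hc => ?_⟩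
  · rintro ⟨_, g, rfl⟩
    exact Subtype.ext (DFunLike.congr_fun hrr g)
  · rcases isEmpty_or_nonempty Y with hY | ⟨⟨y⟩⟩
    · obtain ⟨x⟩ := ‹Nonempty X›
      obtain ⟨θ, hθ⟩ := ex_lift (X := X) (n := a * b) (G := Multiplicative (ZMod a))
        (fun g => by rw [pow_mul, zm, one_pow]) fun _ => Multiplicative.ofAdd 1
      have h3 : r.rangeRestrict (gen _ x) = 1 := φ.injective (Subsingleton.elim _ _)
      have h4 : r (gen _ x) = 1 := congrArg Subtype.val h3
      have h5 := DFunLike.congr_fun (hth (zm a) θ) (gen _ x)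
      rw [MonoidHom.comp_apply, h4, map_one, hθ] at h5
      exact zero_ne_one (α := ZMod a) (congrArg Multiplicative.toAdd h5)
    · obtain ⟨π, hπ⟩ := ex_lift (X := Y) (zm (a * b)) fun _ => Multiplicative.ofAdd 1
      have h3 : (powMonoidHom a).comp (π.comp (φ.toMonoidHom.comp r.rangeRestrict)) = 1 :=
        hom_ext fun x => by
          have : r.rangeRestrict (gen _ x) ^ a = 1 := Subtype.ext (by
            change r (gen _ x) ^ a = 1
            obtain ⟨c, rfl⟩ := hbe
            rw [hr, ← pow_mul, show b * c * a = a * b * c by ring, pow_mul, pow_n, one_pow])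
          change π (φ (r.rangeRestrict (gen _ x))) ^ a = 1
          rw [← map_pow, ← map_pow, this, map_one, map_one]
      obtain ⟨g, hg⟩ := r.rangeRestrict_surjective (φ.symm (gen _ y))
      have h4 : π (φ (r.rangeRestrict g)) ^ a = 1 := DFunLike.congr_fun h3 g
      rw [hg, MulEquiv.apply_symm_apply, hπ] at h4
      have h5 : ((a : ℕ) : ZMod (a * b)) = 0 := by
        simpa using congrArg Multiplicative.toAdd h4
      have h6 := Nat.le_of_dvd (by omega) ((ZMod.natCast_eq_zero_iff _ _).1 h5)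
      nlinarith
  · obtain ⟨x, y, hxy⟩ := hX
    have hG : ∀ g : Multiplicative (ZMod a) × Multiplicative (ZMod a), g ^ a = 1 := fun g =>
      Prod.ext (zm a _) (zm a _)
    obtain ⟨θ, hθ⟩ := ex_lift (X := X) (n := a * b)
      (G := Multiplicative (ZMod a) × Multiplicative (ZMod a))
      (fun g => by rw [pow_mul, hG, one_pow]) fun z =>
        if z = x then (Multiplicative.ofAdd 1, 1) else (1, Multiplicative.ofAdd 1)
    obtain ⟨c, hc⟩ := hc.exists_generator
    obtain ⟨i, hi⟩ := hc (r.rangeRestrict (gen _ x))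
    obtain ⟨j, hj⟩ := hc (r.rangeRestrict (gen _ y))
    have k1 : θ c ^ i = (Multiplicative.ofAdd 1, 1) := by
      rw [← map_zpow, ← Subgroup.coe_zpow]
      have := DFunLike.congr_fun (hth hG θ) (gen _ x)
      rw [hθ, if_pos rfl] at this
      exact (congrArg (fun h : r.range => θ h) hi).trans this
    have k2 : θ c ^ j = (1, Multiplicative.ofAdd 1) := by
      rw [← map_zpow, ← Subgroup.coe_zpow]
      have := DFunLike.congr_fun (hth hG θ) (gen _ y)
      rw [hθ, if_neg hxy.symm] at this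
      exact (congrArg (fun h : r.range => θ h) hj).trans this
    generalize θ c = u at k1 k2
    have l1 : (i : ZMod a) * u.1.toAdd = 1 := by
      simpa using congrArg (fun g => g.1.toAdd) k1
    have l2 : (i : ZMod a) * u.2.toAdd = 0 := by
      simpa using congrArg (fun g => g.2.toAdd) k1
    have l3 : (j : ZMod a) * u.2.toAdd = 1 := by
      simpa using congrArg (fun g => g.2.toAdd) k2
    exact zero_ne_one (α := ZMod a) (by
      linear_combination (u.1.toAdd * (j : ZMod a)) * (-l2) + l1 + (i * u.1.toAdd) * l3)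

theorem result :
    (¬ ∃ N : ℕ, ∀ n : ℕ, N ≤ n → Odd n → ∀ (X : Type) [Nonempty X] (H : Subgroup (B X n)),
      (∃ ρ : B X n →* H, ∀ h : H, ρ h = h) → ∃ Y : Type, Nonempty (H ≃* B Y n)) ∧
    ∀ a b : ℕ, 1 < a → 1 < b → Nat.Coprime a b → ∀ (X : Type) [Nonempty X],
      ∃ H : Subgroup (B X (a * b)), (∃ ρ : B X (a * b) →* H, ∀ h : H, ρ h = h) ∧
        (∀ Y : Type, IsEmpty (H ≃* B Y (a * b))) ∧ (Nontrivial X → ¬ IsCyclic H) := by
  refine ⟨?_, fun a b ha hb hab X _ => main a b ha hb hab X⟩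
  rintro ⟨N, hN⟩
  obtain ⟨H, h1, h2, -⟩ := main 3 (6 * N + 7) (by norm_num) (by omega)
    ((Nat.Prime.coprime_iff_not_dvd Nat.prime_three).2 (by omega)) Bool
  obtain ⟨Y, ⟨φ⟩⟩ := hN _ (by omega) ⟨9 * N + 10, by ring⟩ Bool H h1
  exact (h2 Y).false φ

end Pool.Agent.Results.MP_836feb_al.No
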